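import Pool.Agent.T9h90.SP.Spec

set_option autoImplicit false

/-! Project SP (helper90, MP_29428b_lc): thinning to a homogeneous set. -/

namespace Pool.Agent.T9h18.SP

open Pool.Agent.Helper617.RM Pool.Agent.T9h90.SP

universe u

theorem dfc {N : L2Structure.{u}} [IsModelRCA0 N] {f : N.M → N.M → Bool} (hf : DF N f) (c : Bool) :
    D0 (fun v : Ctx N => f (v 0) (v 1) = c) := by
  cases c with
  | true => exact hf
  | false => exact (D0.not hf).congr fun v => by simp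

theorem univ_mem (N : L2Structure.{u}) [IsModelRCA0 N] : (Set.univ : Set N.M) ∈ N.Sets := by
  have h := comp_D0 (N := N) (P := fun _ => True) D0.true
  have h2 : {n : N.M | True} = Set.univ := Set.eq_univ_of_forall fun _ => trivial
  rw [← h2]
  exact h

theorem hm : S_SQ.{u} → S_RG.{u} → S_HM.{u} := by
  intro hSQ hRG N _ f hf hB c H hH hUnb hlim
  have hstep : ∀ x, x ∈ H → ∃ y, y ∈ H ∧ (x < y ∧ ∀ z, z ≤ x → z ∈ H → f z y = c) := by
    intro x hx
    obtain ⟨b, hb⟩ := hB (fun j t => j ∈ H ∧ t ∈ H ∧ ¬ f j t = c)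
      (D0.and (D0.mem (Tm.var 0) hH) (D0.and (D0.mem (Tm.var 1) hH) (dfc hf c).not)) (x + 1) (by
        intro j _
        by_cases hj : j ∈ H
        · obtain ⟨b, hb⟩ := hlim j hj
          exact ⟨b, fun t ht h => h.2.2 (hb t h.2.1 ht)⟩
        · exact ⟨0, fun t _ h => hj h.1⟩)
    obtain ⟨y, hy, hby⟩ := hUnb (max b x)
    refine ⟨y, hy, lt_of_le_of_lt (le_max_right _ _) hby, fun z hz hzH => ?_⟩
    by_contra hne
    exact hb y (le_of_lt (lt_of_le_of_lt (le_max_left _ _) hby)) z (lt_add_one_iff'.2 hz) ⟨hzH, hy, hne⟩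
  have hR : D0 (fun v : Ctx N => v 0 < v 1 ∧ ∀ z, z ≤ v 0 → z ∈ H → f z (v 1) = c) := by
    refine D0.and (D0.lt (Tm.var 0) (Tm.var 1)) (D0.ballLe (t := fun v => v 0)
      (P := fun v z => z ∈ H → f z (v 1) = c) (Tm.var 0) (D0.imp (D0.mem (Tm.var 0) hH) ?_))
    exact (dfc hf c).comp (g := fun w => cons (w 0) (cons (w 2) w))
      (CM.cons (Tm.var 0) (CM.cons (Tm.var 2) CM.id))
  obtain ⟨a, ha, -⟩ := hUnb 0
  obtain ⟨g, hg, hgn⟩ := hSQ N (fun x => x ∈ H) (fun x y => x < y ∧ ∀ z, z ≤ x → z ∈ H → f z y = c)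
    (D0.mem (Tm.var 0) hH).S1 hR.S1 ⟨a, ha⟩ hstep
  obtain ⟨hmono, hge, hran⟩ := hRG N g hg (fun n => (hgn n).2.1)
  obtain ⟨hS, hU⟩ := hran Set.univ (univ_mem N)
  refine ⟨{y | ∃ i ∈ Set.univ, y = g i}, hS, ?_, hU ?_, ?_⟩
  · rintro y ⟨i, -, rfl⟩
    exact (hgn i).1
  · intro b
    exact ⟨b + 1, trivial, lt_add_one_iff'.2 le_rfl⟩
  · rintro x ⟨i, -, rfl⟩ y ⟨j, -, rfl⟩ hxy
    have hij : i < j := by
      by_contra h
      rcases lt_or_eq_of_le (not_lt.1 h) with h | h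
      · exact lt_asymm hxy (hmono _ _ h)
      · rw [h] at hxy
        exact lt_irrefl _ hxy
    rcases eq_zero_or_succ j with rfl | ⟨k, rfl⟩
    · exact absurd hij (not_lt.2 (zero_le' i))
    · have hik : i ≤ k := lt_add_one_iff'.1 hij
      refine (hgn k).2.2 (g i) ?_ (hgn i).1
      rcases lt_or_eq_of_le hik with h | h
      · exact (hmono _ _ h).le
      · rw [h]

end Pool.Agent.T9h18.SP
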